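import Pool.Agent.Y303.LN.Ode2
import Pool.Agent.Y303.EJ.All

/-! Project LN, second part: the theorem on the main modes, everything together. -/

set_option autoImplicit false

namespace Pool.Agent.Y303.LN

theorem t_ODE2' : Pool.Agent.Y7.LN.S_ODE2 :=
  t_ODE2 Pool.Agent.Y44.EJ.t_NUM Pool.Agent.Y255.EJ.t_CH Pool.Agent.Y888.EJ.t_GROW
    Pool.Agent.Y888.EJ.t_GZ Pool.Agent.Y888.EJ.t_LIP Pool.Agent.Y815.EJ.t_UPA
    Pool.Agent.Y815.EJ.t_FAR Pool.Agent.Y888.EJ.t_NEG Pool.Agent.Y574.EJ.t_LOW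
    Pool.Agent.Y21.EJ.t_ROT Pool.Agent.Y297.EJ.t_STG Pool.Agent.Y812.EJ.t_ENL
    Pool.Agent.Y25.EJ.t_NEXT Pool.Agent.Y273.EJ.t_BASE

end Pool.Agent.Y303.LN
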