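import Pool.Agent.Y303.EJ.Fine

/-!
Project LN (helper7): non-uniqueness of the Leray-Hopf solutions. Interface of the glueing step.
-/

open Set Filter Topology MeasureTheory Metric

set_option autoImplicit false

namespace Pool.Agent.Y303.LN

open Pool.Agent.Y5 (E3)
open Pool.Agent.Y5.D (Ix qd vf3 Init)
open Pool.Agent.Y6.N
open Pool.Agent.Y6.K (Kz lv)
open Pool.Agent.Y303.SK
open Pool.Agent.Y303.EJ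

/-- The second piece, on `(T, Θ]`: smooth, coefficients with limits at `T`, energy at most `E₂`;
`w` is the value at the time `T`. -/
structure Aft {ι : Type} (Ω : Set E3) (ν : ℝ) (e : ι → E3 → E3) (σ : ι → ι) (s : ι → ℝ)
    (T Θ : ℝ) (u : ℝ → E3 → E3) (w : E3 → E3) (E₂ : ℝ) : Prop where
  cfk : ∀ k : ℕ, ∀ T₁ ∈ Ioc T Θ, ∃ b : ι → ℝ, Summable b ∧ ∀ t ∈ Icc T₁ Θ, ∀ i,
    |ipr (u t) (e i)| * nk k (e i) ≤ b i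
  cf : ∀ T₁ ∈ Ioc T Θ, ∃ b : ι → ℝ, Summable b ∧ ∀ t ∈ Icc T₁ Θ, ∀ i, |ipr (u t) (e i)| ≤ b i
  rep : ∀ t ∈ Ioc T Θ, u t = ser e (fun i => ipr (u t) (e i))
  eqn : ∀ i, ∀ t ∈ Ioc T Θ, HasDerivWithinAt (fun τ => ipr (u τ) (e i))
    (s i * ipr (u t) (e (σ i)) - ν * dirf (u t) (e i) - adv (u t) (u t) (e i)) (Ioc T Θ) t
  lim : ∀ i, Tendsto (fun t => ipr (u t) (e i)) (𝓝[>] T) (𝓝 (ipr w (e i)))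
  bd : ∀ t ∈ Ioc T Θ, ipr (u t) (u t) ≤ E₂

/-- The glueing step: the first piece is a Leray-Hopf solution on `[0, T]` (for example the
solution of project EJ), the second piece is `Aft`. -/
def S_GLUE : Prop := ∀ (Ω : Set E3) (ν : ℝ) (ι : Type) (e : ι → E3 → E3) (σ : ι → ι)
  (s : ι → ℝ) (T Θ E₂ : ℝ) (u u₂ : ℝ → E3 → E3), IsOpen Ω → Bornology.IsBounded Ω → 0 < ν →
  0 < T → T < Θ → Countable ι → SkewD Ω e σ s → LH Ω ν e σ s T u (fun t => gr (u t)) →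
  Aft Ω ν e σ s T Θ u₂ (u T) E₂ → ipr (u 0) (u 0) = 1 →
  E₂ + 2 * ν * (∫ τ in (0 : ℝ)..T, gg (gr (u τ))) ≤ ipr (u 0) (u 0) →
  ∃ U : ℝ → E3 → E3, (∀ t ≤ T, U t = u t) ∧ (∀ t > T, U t = u₂ t) ∧
    LH Ω ν e σ s Θ U (fun t => gr (U t)) ∧
    (∀ t ∈ Ioc T Θ, ContDiff ℝ (⊤ : ℕ∞) (u₂ t)) ∧ (∀ t ∈ Ioc T Θ, ∀ x ∉ Ω, u₂ t x = 0) ∧
    (∀ t ∈ Ioc T Θ, ∀ x, dvg (u₂ t) x = 0) ∧
    (∀ k : ℕ, ∀ T₁ ∈ Ioc T Θ, ∃ M, ∀ t ∈ Icc T₁ Θ, ∀ x, ‖iteratedFDeriv ℝ k (u₂ t) x‖ ≤ M) ∧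
    ∀ r t : ℝ, T < r → r ≤ t → t ≤ Θ →
      ipr (u₂ t) (u₂ t) + 2 * ν * (∫ τ in r..t, gg (gr (u₂ τ))) = ipr (u₂ r) (u₂ r)

/-- From the modes to the field, for the second piece (the modes as in `SolE`). -/
def S_AFT : Prop := ∀ (Ω : Set E3) (ν : ℝ) (e : Ix (ℕ × Bool) → E3 → E3) (S : ℕ → ℝ)
  (T Θ E₂ : ℝ) (z : Ix (ℕ × Bool) → ℝ → ℝ) (w : E3 → E3), IsOpen Ω → Bornology.IsBounded Ω →
  T < Θ → SkewD Ω e σI (sI S) →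
  (∀ k : ℕ, ∀ T₁ ∈ Ioc T Θ, ∃ b : Ix (ℕ × Bool) → ℝ, Summable b ∧ ∀ t ∈ Icc T₁ Θ, ∀ i,
    |z i t| * nk k (e i) ≤ b i) →
  (∀ T₁ ∈ Ioc T Θ, ∃ b : Ix (ℕ × Bool) → ℝ, Summable b ∧ ∀ t ∈ Icc T₁ Θ, ∀ i, |z i t| ≤ b i) →
  (∀ i, ∀ t ∈ Ioc T Θ, HasDerivWithinAt (z i)
    (Kz S oo ss tt (fun a => z a t) i - lin (DD ν e) (fun a => z a t) i +
      qd (cc e) (fun a => z a t) i) (Ioc T Θ) t) →
  (∀ i, Tendsto (z i) (𝓝[>] T) (𝓝 (ipr w (e i)))) →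
  (∀ t ∈ Ioc T Θ, ∑' i, z i t ^ 2 ≤ E₂) →
  Aft Ω ν e σI (sI S) T Θ (fun t => ser e (fun i => z i t)) w E₂ ∧
    ∀ t ∈ Ioc T Θ, (∀ i, ipr (ser e (fun i => z i t)) (e i) = z i t) ∧
      ipr (ser e (fun i => z i t)) (ser e (fun i => z i t)) = ∑' i, z i t ^ 2

end Pool.Agent.Y303.LN
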