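import Pool.Agent.Y303.LN.Defs

/-! Project LN: from the modes to the field (second piece). -/

open Set Filter Topology MeasureTheory Metric

set_option autoImplicit false

namespace Pool.Agent.Y303.LN

open Pool.Agent.Y5 (E3)
open Pool.Agent.Y5.D (Ix qd vf3 Init)
open Pool.Agent.Y6.N
open Pool.Agent.Y6.K (Kz lv)
open Pool.Agent.Y303.SK
open Pool.Agent.Y303.EJ

theorem t_AFT : S_AFT := by
  intro Ω ν e S T Θ E₂ z w hΩ hb hTΘ hskew hcfk hcf hder hlim hbd
  have hco : Countable (Ix (ℕ × Bool)) := inferInstance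
  have hsum : ∀ t ∈ Ioc T Θ, ∀ k : ℕ, Summable (fun i => |z i t| * nk k (e i)) := by
    intro t ht k
    obtain ⟨b, hb1, hb2⟩ := hcfk k t ht
    exact Summable.of_nonneg_of_le (fun i => mul_nonneg (abs_nonneg _) (nk_nonneg _ _))
      (hb2 t ⟨le_rfl, ht.2⟩) hb1
  have hS := fun t (ht : t ∈ Ioc T Θ) => Pool.Agent.Y427.SK.t_SER Ω (Ix (ℕ × Bool)) e
    (fun i => z i t) hΩ hb hskew.field hskew.orth (hsum t ht)
  set u : ℝ → E3 → E3 := fun t => ser e (fun i => z i t) with hu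
  have hcoef : ∀ t ∈ Ioc T Θ, ∀ i, ipr (u t) (e i) = z i t := fun t ht i =>
    (hS t ht).2.2.2.2.2.1 i
  have hnrm : ∀ t ∈ Ioc T Θ, ipr (u t) (u t) = ∑' i, z i t ^ 2 := by
    intro t ht
    rw [((Pool.Agent.Y936.EJ.t_WC Ω _ e σI (sI S) hΩ hb hskew hco).1 (u t)
      (hS t ht).2.2.2.2.1).2]
    exact tsum_congr fun i => by rw [hcoef t ht i]
  refine ⟨⟨?_, ?_, ?_, ?_, ?_, ?_⟩, fun t ht => ⟨hcoef t ht, hnrm t ht⟩⟩
  · intro k T₁ hT₁
    obtain ⟨b, hb1, hb2⟩ := hcfk k T₁ hT₁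
    refine ⟨b, hb1, fun t ht i => ?_⟩
    have ht' : t ∈ Ioc T Θ := ⟨hT₁.1.trans_le ht.1, ht.2⟩
    have h1 := hcoef t ht' i
    have h2 := hb2 t ht i
    rw [← h1] at h2
    exact h2
  · intro T₁ hT₁
    obtain ⟨b, hb1, hb2⟩ := hcf T₁ hT₁
    refine ⟨b, hb1, fun t ht i => ?_⟩
    have ht' : t ∈ Ioc T Θ := ⟨hT₁.1.trans_le ht.1, ht.2⟩
    have h1 := hcoef t ht' i
    have h2 := hb2 t ht i
    rw [← h1] at h2
    exact h2
  · intro t ht
    have h1 : (fun i => ipr (u t) (e i)) = fun i => z i t := funext fun i => hcoef t ht i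
    show u t = ser e (fun i => ipr (u t) (e i))
    rw [h1]
  · intro i t ht
    have h1 := hder i t ht
    have h2 : HasDerivWithinAt (fun τ => ipr (u τ) (e i))
        (Kz S oo ss tt (fun a => z a t) i - lin (DD ν e) (fun a => z a t) i +
          qd (cc e) (fun a => z a t) i) (Ioc T Θ) t :=
      h1.congr (fun τ hτ => hcoef τ hτ i) (hcoef t ht i)
    refine h2.congr_deriv ?_
    have e1 : Kz S oo ss tt (fun a => z a t) i = sI S i * ipr (u t) (e (σI i)) := by
      rw [hcoef t ht]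
      rcases i with n | j
      · show (0 : ℝ) = 0 * _
        rw [zero_mul]
      · rfl
    have e2 : lin (DD ν e) (fun a => z a t) i = ν * dirf (u t) (e i) := by
      have h3 := (hS t ht).2.2.2.2.2.2.1 i
      have h3' : dirf (u t) (e i) = ∑' b, dirf (e i) (e b) * z b t := h3
      rw [h3', ← tsum_mul_left]
      unfold lin DD
      exact tsum_congr fun b => by ring
    have e3 : qd (cc e) (fun a => z a t) i = -adv (u t) (u t) (e i) := by
      have h3 := (hS t ht).2.2.2.2.2.2.2 i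
      have h3' : adv (u t) (u t) (e i) =
        ∑' p : Ix (ℕ × Bool) × Ix (ℕ × Bool), adv (e p.1) (e p.2) (e i) * z p.1 t * z p.2 t := h3
      rw [h3', ← tsum_neg]
      unfold qd cc
      exact tsum_congr fun b => by ring
    rw [e1, e2, e3]
    ring
  · intro i
    refine (hlim i).congr' ?_
    filter_upwards [Ioc_mem_nhdsGT hTΘ] with t ht
    exact (hcoef t ht i).symm
  · intro t ht
    show ipr (u t) (u t) ≤ E₂
    rw [hnrm t ht]
    exact hbd t ht

end Pool.Agent.Y303.LN
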