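import Mathlib

/-! Project LN: functions of one variable near the left end of an interval. -/

open Set Filter Topology MeasureTheory Metric

set_option autoImplicit false

namespace Pool.Agent.Y303.LN

theorem ext_right {g F : ℝ → ℝ} {C a b : ℝ} (hab : a ≤ b) (hc : ContinuousOn g (Icc a b))
    (hd : ∀ t ∈ Ioo a b, HasDerivAt g (F t) t) (hF : ∀ t ∈ Ioo a b, |F t| ≤ C) :
    IntegrableOn F (Ioo a b) ∧ ∀ t ∈ Icc a b, g t = g a + ∫ τ in a..t, F τ := by
  have hint : IntegrableOn F (Ioo a b) := by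
    have h2 : IntegrableOn (deriv g) (Ioo a b) := by
      refine Measure.integrableOn_of_bounded (M := C) (by simp) ?_ ?_
      · exact (measurable_deriv g).aestronglyMeasurable
      · refine (ae_restrict_iff' measurableSet_Ioo).2 (Eventually.of_forall fun t ht => ?_)
        rw [(hd t ht).deriv, Real.norm_eq_abs]
        exact hF t ht
    exact h2.congr_fun (fun t ht => (hd t ht).deriv) measurableSet_Ioo
  refine ⟨hint, fun t ht => ?_⟩
  have h3 := intervalIntegral.integral_eq_sub_of_hasDerivAt_of_le (f := g) (f' := F) ht.1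
    (hc.mono (Icc_subset_Icc_right ht.2)) (fun x hx => hd x ⟨hx.1, hx.2.trans_le ht.2⟩) (by
      rw [intervalIntegrable_iff_integrableOn_Ioo_of_le ht.1]
      exact hint.mono_set (Ioo_subset_Ioo_right ht.2))
  rw [h3]
  ring

theorem mon_right {E d : ℝ → ℝ} {c T Θ E₂ : ℝ} (hT : T < Θ) (hc : 0 < c)
    (hE : ∀ t ∈ Ioo T Θ, HasDerivAt E (-(c * d t)) t) (hEc : ContinuousOn E (Ioc T Θ))
    (hd : ∀ t, 0 ≤ d t) (hE₂ : ∀ t ∈ Ioc T Θ, E t ≤ E₂) :
    IntegrableOn d (Ioo T Θ) ∧ (∀ t ∈ Ioc T Θ, E t + c * (∫ τ in T..t, d τ) ≤ E₂) ∧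
      ∀ r t : ℝ, T < r → r ≤ t → t ≤ Θ → E t + c * (∫ τ in r..t, d τ) = E r := by
  have hanti : AntitoneOn E (Ioc T Θ) := by
    refine antitoneOn_of_deriv_nonpos (convex_Ioc T Θ) hEc ?_ ?_
    · intro t ht
      rw [interior_Ioc] at ht
      exact (hE t ht).differentiableAt.differentiableWithinAt
    · intro t ht
      rw [interior_Ioc] at ht
      rw [(hE t ht).deriv]
      have := mul_nonneg hc.le (hd t)
      linarith
  have hlim := AntitoneOn.tendsto_nhdsWithin_Ioo_right (f := E) (nonempty_Ioo.2 hT)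
    (hanti.mono Ioo_subset_Ioc_self) (by
      refine ⟨E₂, ?_⟩
      rintro _ ⟨t, ht, rfl⟩
      exact hE₂ t ⟨ht.1, ht.2.le⟩)
  obtain ⟨l, hl⟩ : ∃ l, Tendsto E (𝓝[>] T) (𝓝 l) := ⟨_, hlim⟩
  have hlE : l ≤ E₂ := by
    refine le_of_tendsto hl ?_
    filter_upwards [Ioc_mem_nhdsGT hT] with t ht
    exact hE₂ t ht
  obtain ⟨G, hG⟩ : ∃ G : ℝ → ℝ, G = fun t => if T < t then E t else l := ⟨_, rfl⟩
  have hGE : ∀ t, T < t → G t = E t := fun t ht => by rw [hG]; exact if_pos ht
  have hGT : G T = l := by rw [hG]; exact if_neg (lt_irrefl T)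
  have hGc : ContinuousOn G (Icc T Θ) := by
    intro t ht
    rcases lt_or_eq_of_le ht.1 with h | h
    · have h1 : ContinuousWithinAt E (Icc T Θ) t := by
        refine (hEc t ⟨h, ht.2⟩).mono_of_mem_nhdsWithin ?_
        rw [mem_nhdsWithin]
        exact ⟨Ioi T, isOpen_Ioi, h, fun y hy => ⟨hy.1, hy.2.2⟩⟩
      refine h1.congr_of_eventuallyEq ?_ (hGE t h)
      have h2 : Ioi T ∈ 𝓝[Icc T Θ] t := mem_nhdsWithin_of_mem_nhds (Ioi_mem_nhds h)
      filter_upwards [h2] with y hy
      exact hGE y hy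
    · subst h
      have h1 : ContinuousWithinAt G (Ioi T) T := by
        rw [ContinuousWithinAt, hGT]
        refine hl.congr' ?_
        filter_upwards [self_mem_nhdsWithin] with y hy
        exact (hGE y hy).symm
      exact (continuousWithinAt_Ioi_iff_Ici.1 h1).mono Icc_subset_Ici_self
  have hGd : ∀ t ∈ Ioo T Θ, HasDerivAt G (-(c * d t)) t := by
    intro t ht
    refine (hE t ht).congr_of_eventuallyEq ?_
    filter_upwards [Ioi_mem_nhds ht.1] with y hy
    exact hGE y hy
  have hint : IntegrableOn d (Ioo T Θ) := by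
    have h1 := intervalIntegral.integrableOn_deriv_of_nonneg (g := fun t => -(c⁻¹ * G t))
      (g' := d) (a := T) (b := Θ) ?_ ?_ ?_
    · exact h1.mono_set Ioo_subset_Ioc_self
    · exact (hGc.const_smul c⁻¹).neg
    · intro t ht
      have h2 := ((hGd t ht).const_mul c⁻¹).neg
      refine h2.congr_deriv ?_
      field_simp
    · intro t _
      exact hd t
  have key : ∀ r t : ℝ, T ≤ r → r ≤ t → t ≤ Θ → G t + c * (∫ τ in r..t, d τ) = G r := by
    intro r t h1 h2 h3
    have h4 := intervalIntegral.integral_eq_sub_of_hasDerivAt_of_le (f := G)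
      (f' := fun τ => -(c * d τ)) h2 (hGc.mono (Icc_subset_Icc h1 h3))
      (fun x hx => hGd x ⟨h1.trans_lt hx.1, hx.2.trans_le h3⟩) (by
        rw [intervalIntegrable_iff_integrableOn_Ioo_of_le h2]
        exact ((hint.mono_set (Ioo_subset_Ioo h1 h3)).const_mul c).neg)
    rw [intervalIntegral.integral_neg, intervalIntegral.integral_const_mul] at h4
    linarith
  refine ⟨hint, fun t ht => ?_, fun r t h1 h2 h3 => ?_⟩
  · have h4 := key T t le_rfl ht.1.le ht.2
    rw [hGT, hGE t ht.1] at h4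
    linarith
  · have h4 := key r t h1.le h2 h3
    rwa [hGE r h1, hGE t (h1.trans_le h2)] at h4

end Pool.Agent.Y303.LN
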