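import Pool.Agent.Y303.LN.Defs
import Pool.Agent.Y303.LN.One

/-! Project LN: the glueing step. -/

open Set Filter Topology MeasureTheory Metric

set_option autoImplicit false

namespace Pool.Agent.Y303.LN

open Pool.Agent.Y5 (E3)
open Pool.Agent.Y303.SK
open Pool.Agent.Y303.EJ

section

variable {Ω : Set E3} {ν : ℝ} {ι : Type} {e : ι → E3 → E3} {σ : ι → ι} {s : ι → ℝ} {T Θ E₂ : ℝ}
  {u₂ : ℝ → E3 → E3} {w : E3 → E3}

/-- facts on the second piece at a fixed time -/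
structure Fx (Ω : Set E3) (u : E3 → E3) : Prop where
  sm : ContDiff ℝ (⊤ : ℕ∞) u
  zero : ∀ x ∉ Ω, u x = 0
  dv : ∀ x, dvg u x = 0
  inH : InH Ω u
  h1 : H1w Ω u (gr u)

theorem aft_fx [Countable ι] (hΩ : IsOpen Ω) (hb : Bornology.IsBounded Ω) (hskew : SkewD Ω e σ s)
    (hA : Aft Ω ν e σ s T Θ u₂ w E₂) {t : ℝ} (ht : t ∈ Ioc T Θ) : Fx Ω (u₂ t) := by
  have hsum : ∀ k : ℕ, Summable (fun i => |ipr (u₂ t) (e i)| * nk k (e i)) := by
    intro k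
    obtain ⟨b, hb1, hb2⟩ := hA.cfk k t ht
    exact Summable.of_nonneg_of_le (fun i => mul_nonneg (abs_nonneg _) (nk_nonneg _ _))
      (hb2 t ⟨le_rfl, ht.2⟩) hb1
  have hS := Pool.Agent.Y427.SK.t_SER Ω ι e (fun i => ipr (u₂ t) (e i)) hΩ hb hskew.field
    hskew.orth hsum
  have hH := Pool.Agent.Y810.EJ.ser_H1 (z := fun i => ipr (u₂ t) (e i)) hb hskew.field hsum
  rw [← hA.rep t ht] at hS hH
  exact ⟨hS.1, hS.2.1, hS.2.2.2.1, hS.2.2.2.2.1, hH⟩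

theorem aft_der [Countable ι] (hΩ : IsOpen Ω) (hb : Bornology.IsBounded Ω)
    (hskew : SkewD Ω e σ s) (hA : Aft Ω ν e σ s T Θ u₂ w E₂) (k : ℕ) {T₁ : ℝ}
    (hT₁ : T₁ ∈ Ioc T Θ) : ∃ M, ∀ t ∈ Icc T₁ Θ, ∀ x, ‖iteratedFDeriv ℝ k (u₂ t) x‖ ≤ M := by
  obtain ⟨b, hb1, hb2⟩ := hA.cfk k T₁ hT₁
  refine ⟨∑' i, b i, fun t ht x => ?_⟩
  have ht' : t ∈ Ioc T Θ := ⟨hT₁.1.trans_le ht.1, ht.2⟩
  have hsum : ∀ k : ℕ, Summable (fun i => |ipr (u₂ t) (e i)| * nk k (e i)) := by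
    intro k
    obtain ⟨b, hb1, hb2⟩ := hA.cfk k t ht'
    exact Summable.of_nonneg_of_le (fun i => mul_nonneg (abs_nonneg _) (nk_nonneg _ _))
      (hb2 t ⟨le_rfl, ht.2⟩) hb1
  have hS := (Pool.Agent.Y427.SK.t_SER Ω ι e (fun i => ipr (u₂ t) (e i)) hΩ hb hskew.field
    hskew.orth hsum).2.2.1 k x
  rw [← hA.rep t ht'] at hS
  exact hS.trans ((hsum k).tsum_le_tsum (hb2 t ht) hb1)

/-- the energy of the second piece -/
theorem aft_en [Countable ι] (hΩ : IsOpen Ω) (hb : Bornology.IsBounded Ω)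
    (hskew : SkewD Ω e σ s) (hA : Aft Ω ν e σ s T Θ u₂ w E₂) {t : ℝ} (ht : t ∈ Ioo T Θ) :
    HasDerivAt (fun τ => ipr (u₂ τ) (u₂ τ)) (-(2 * ν * dirf (u₂ t) (u₂ t))) t := by
  obtain ⟨T₁, hT₁, hT₁t⟩ := exists_between ht.1
  have hm : ∀ τ ∈ Ico 0 (Θ - T₁), T₁ + τ ∈ Ioc T Θ := fun τ hτ =>
    ⟨by linarith [hτ.1], by linarith [hτ.2]⟩
  have hT₁' : T₁ ∈ Ioc T Θ := ⟨hT₁, (hT₁t.trans ht.2).le⟩
  have hsol : SolD Ω ν e σ s (Θ - T₁) (fun τ => u₂ (T₁ + τ)) := by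
    refine ⟨fun τ hτ => (aft_fx hΩ hb hskew hA (hm τ hτ)).sm.continuous,
      fun τ hτ => (aft_fx hΩ hb hskew hA (hm τ hτ)).zero,
      fun τ hτ => ((aft_fx hΩ hb hskew hA (hm τ hτ)).sm.of_le two_le).contDiffOn,
      fun τ hτ x _ => (aft_fx hΩ hb hskew hA (hm τ hτ)).dv x,
      fun τ hτ => (aft_fx hΩ hb hskew hA (hm τ hτ)).inH, ?_, ?_⟩
    · intro T' hT'
      obtain ⟨M0, h0⟩ := aft_der hΩ hb hskew hA 0 hT₁'
      obtain ⟨M1, h1⟩ := aft_der hΩ hb hskew hA 1 hT₁'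
      obtain ⟨M2, h2⟩ := aft_der hΩ hb hskew hA 2 hT₁'
      refine ⟨max M0 (max M1 M2), fun τ hτ x _ => ?_⟩
      have hτ' : T₁ + τ ∈ Icc T₁ Θ := ⟨by linarith [hτ.1], by linarith [hτ.2]⟩
      refine ⟨?_, ?_, ?_⟩
      · have := h0 _ hτ' x
        rw [norm_iteratedFDeriv_zero] at this
        exact this.trans (le_max_left _ _)
      · have := h1 _ hτ' x
        rw [← norm_iteratedFDeriv_fderiv, norm_iteratedFDeriv_zero] at this
        exact this.trans ((le_max_left _ _).trans (le_max_right _ _))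
      · have := h2 _ hτ' x
        rw [← norm_iteratedFDeriv_fderiv, ← norm_iteratedFDeriv_fderiv,
          norm_iteratedFDeriv_zero] at this
        exact this.trans ((le_max_right _ _).trans (le_max_right _ _))
    · intro i τ hτ
      have h1 := hA.eqn i (T₁ + τ) (hm τ hτ)
      have h2 : HasDerivWithinAt (fun τ : ℝ => T₁ + τ) 1 (Ico 0 (Θ - T₁)) τ :=
        ((hasDerivAt_id τ).const_add T₁).hasDerivWithinAt
      have h3 := h1.comp τ h2 (fun τ hτ => hm τ hτ)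
      refine h3.congr_deriv ?_
      rw [mul_one]
  have hen := Pool.Agent.Y500.SK.t_ENER Ω ν ι e σ s (Θ - T₁) (fun τ => u₂ (T₁ + τ)) hΩ hb hskew
    hsol (fun τ hτ => (aft_fx hΩ hb hskew hA (hm τ hτ)).sm.of_le two_le) (by
      intro T' hT'
      obtain ⟨b, hb1, hb2⟩ := hA.cf T₁ hT₁'
      refine ⟨b, hb1, fun τ hτ => hb2 _ ⟨by linarith [hτ.1], by linarith [hτ.2]⟩⟩)
  have h4 := hen (t - T₁) ⟨by linarith, by linarith [ht.2]⟩
  have h5 := h4.hasDerivAt (Ico_mem_nhds (by linarith) (by linarith [ht.2]))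
  have h6 : HasDerivAt (fun τ : ℝ => τ - T₁) 1 t := (hasDerivAt_id t).sub_const T₁
  have h7 := HasDerivAt.comp t h5 h6
  have e1 : T₁ + (t - T₁) = t := by ring
  simp only [e1, mul_one] at h7
  have h8 : ((fun τ => ipr (u₂ (T₁ + τ)) (u₂ (T₁ + τ))) ∘ fun τ : ℝ => τ - T₁) =
      fun τ => ipr (u₂ τ) (u₂ τ) := by
    funext τ
    simp only [Function.comp]
    rw [show T₁ + (τ - T₁) = τ by ring]
  rw [h8] at h7
  refine h7.congr_deriv ?_
  ring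

theorem aft_cont [Countable ι] (hΩ : IsOpen Ω) (hb : Bornology.IsBounded Ω)
    (hskew : SkewD Ω e σ s) (hA : Aft Ω ν e σ s T Θ u₂ w E₂) :
    ContinuousOn (fun τ => ipr (u₂ τ) (u₂ τ)) (Ioc T Θ) := by
  intro t ht
  obtain ⟨T₁, hT₁, hT₁t⟩ := exists_between ht.1
  have hT₁' : T₁ ∈ Ioc T Θ := ⟨hT₁, hT₁t.le.trans ht.2⟩
  obtain ⟨b, hb1, hb2⟩ := hA.cf T₁ hT₁'
  have hsub : Icc T₁ Θ ⊆ Ioc T Θ := fun τ hτ => ⟨hT₁.trans_le hτ.1, hτ.2⟩
  have hb0 : ∀ i, 0 ≤ b i := fun i => (abs_nonneg _).trans (hb2 Θ ⟨hT₁'.2, le_rfl⟩ i)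
  have hble : ∀ i, b i ≤ ∑' i, b i := fun i => hb1.le_tsum i fun j _ => hb0 j
  have hcont : ContinuousOn (fun τ => ∑' i, ipr (u₂ τ) (e i) ^ 2) (Icc T₁ Θ) := by
    refine continuousOn_tsum (u := fun i => (∑' i, b i) * b i) (fun i => ?_)
      (hb1.mul_left _) ?_
    · intro τ hτ
      exact (((hA.eqn i τ (hsub hτ)).continuousWithinAt.mono hsub).pow 2)
    · intro i τ hτ
      rw [Real.norm_eq_abs, abs_pow, sq]
      exact mul_le_mul ((hb2 τ hτ i).trans (hble i)) (hb2 τ hτ i) (abs_nonneg _)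
        ((hb0 i).trans (hble i))
  have hP := (Pool.Agent.Y936.EJ.t_WC Ω ι e σ s hΩ hb hskew inferInstance).1
  have h1 : ContinuousOn (fun τ => ipr (u₂ τ) (u₂ τ)) (Icc T₁ Θ) :=
    hcont.congr fun τ hτ => (hP (u₂ τ) (aft_fx hΩ hb hskew hA (hsub hτ)).inH).2
  refine (h1 t ⟨hT₁t.le, ht.2⟩).mono_of_mem_nhdsWithin ?_
  rw [mem_nhdsWithin]
  exact ⟨Ioi T₁, isOpen_Ioi, hT₁t, fun y hy => ⟨le_of_lt hy.1, hy.2.2⟩⟩

end

theorem t_GLUE : S_GLUE := by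
  intro Ω ν ι e σ s T Θ E₂ u u₂ hΩ hb hν hT hTΘ hco hskew hL hA h01 hE₂
  classical
  have hfx := fun t (ht : t ∈ Ioc T Θ) => aft_fx hΩ hb hskew hA ht
  have hgg0 : ∀ G : E3 → Fin 3 → E3, 0 ≤ gg G := fun G =>
    integral_nonneg fun x => Finset.sum_nonneg fun i _ => sq_nonneg _
  obtain ⟨hdi, hen1, hen2⟩ := mon_right (E := fun t => ipr (u₂ t) (u₂ t))
    (d := fun t => dirf (u₂ t) (u₂ t)) (c := 2 * ν) (E₂ := E₂) hTΘ (by positivity)
    (fun t ht => aft_en hΩ hb hskew hA ht) (aft_cont hΩ hb hskew hA)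
    (fun t => dirf_nonneg _) hA.bd
  -- the whole solution
  set U : ℝ → E3 → E3 := fun t => if t ≤ T then u t else u₂ t with hU
  have hU1 : ∀ t ≤ T, U t = u t := fun t ht => if_pos ht
  have hU2 : ∀ t > T, U t = u₂ t := fun t ht => if_neg (not_le.2 ht)
  have hI1 : ∀ (Φ : (E3 → E3) → ℝ) (a t : ℝ), a ≤ t → t ≤ T →
      ∫ τ in a..t, Φ (U τ) = ∫ τ in a..t, Φ (u τ) := by
    intro Φ a t h1 h2
    refine intervalIntegral.integral_congr fun τ hτ => ?_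
    rw [uIcc_of_le h1] at hτ
    have h3 := hU1 τ (hτ.2.trans h2)
    show Φ (U τ) = Φ (u τ)
    rw [h3]
  have hI2 : ∀ (Φ : (E3 → E3) → ℝ) (t : ℝ), T ≤ t →
      ∫ τ in T..t, Φ (U τ) = ∫ τ in T..t, Φ (u₂ τ) := by
    intro Φ t h1
    rw [intervalIntegral.integral_of_le h1, intervalIntegral.integral_of_le h1]
    refine setIntegral_congr_fun measurableSet_Ioc fun τ hτ => ?_
    have h3 := hU2 τ hτ.1
    show Φ (U τ) = Φ (u₂ τ)
    rw [h3]
  have hInt1 : ∀ (Φ : (E3 → E3) → ℝ), IntegrableOn (fun τ => Φ (u τ)) (Ioo 0 T) →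
      IntegrableOn (fun τ => Φ (U τ)) (Ioc 0 T) := by
    intro Φ h
    rw [integrableOn_Ioc_iff_integrableOn_Ioo]
    refine h.congr_fun (fun τ hτ => ?_) measurableSet_Ioo
    simp only
    rw [hU1 τ hτ.2.le]
  have hInt2 : ∀ (Φ : (E3 → E3) → ℝ), IntegrableOn (fun τ => Φ (u₂ τ)) (Ioo T Θ) →
      IntegrableOn (fun τ => Φ (U τ)) (Ioo T Θ) := by
    intro Φ h
    refine h.congr_fun (fun τ hτ => ?_) measurableSet_Ioo
    simp only
    rw [hU2 τ hτ.1]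
  have hInt : ∀ (Φ : (E3 → E3) → ℝ), IntegrableOn (fun τ => Φ (u τ)) (Ioo 0 T) →
      IntegrableOn (fun τ => Φ (u₂ τ)) (Ioo T Θ) →
      IntegrableOn (fun τ => Φ (U τ)) (Ioo 0 Θ) := by
    intro Φ h1 h2
    refine ((hInt1 Φ h1).union (hInt2 Φ h2)).mono_set ?_
    intro τ hτ
    rcases le_or_gt τ T with h | h
    · exact Or.inl ⟨hτ.1, h⟩
    · exact Or.inr ⟨h, hτ.2⟩
  -- energies
  have hE₂1 : E₂ ≤ 1 := by
    have h1 : 0 ≤ ∫ τ in (0 : ℝ)..T, gg (gr (u τ)) :=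
      intervalIntegral.integral_nonneg hT.le fun r _ => hgg0 _
    have h2 : 0 ≤ 2 * ν * ∫ τ in (0 : ℝ)..T, gg (gr (u τ)) := by positivity
    rw [h01] at hE₂
    linarith
  have hUn : ∀ t ∈ Icc 0 Θ, InH Ω (U t) ∧ ipr (U t) (U t) ≤ 1 := by
    intro t ht
    rcases le_or_gt t T with h | h
    · rw [hU1 t h]
      refine ⟨hL.inH t ⟨ht.1, h⟩, ?_⟩
      have h1 := hL.energy t ⟨ht.1, h⟩
      have h2 : 0 ≤ ∫ τ in (0 : ℝ)..t, gg (gr (u τ)) :=
        intervalIntegral.integral_nonneg ht.1 fun r _ => hgg0 _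
      have h3 : 0 ≤ 2 * ν * ∫ τ in (0 : ℝ)..t, gg (gr (u τ)) := by positivity
      rw [h01] at h1
      linarith
    · rw [hU2 t h]
      exact ⟨(hfx t ⟨h, ht.2⟩).inH, (hA.bd t ⟨h, ht.2⟩).trans hE₂1⟩
  -- coefficients
  have hcs : ∀ i, InH Ω (e i) := fun i => Pool.Agent.Y284.EJ.inH_cs (hskew.field i)
  have hgc : ∀ i, ContinuousOn (fun t => ipr (U t) (e i)) (Icc 0 Θ) := by
    intro i t ht
    rcases lt_trichotomy t T with h | h | h
    · have h1 := hL.cont (e i) (hcs i) t ⟨ht.1, h.le⟩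
      have h2 : ContinuousWithinAt (fun t => ipr (u t) (e i)) (Icc 0 Θ) t := by
        refine h1.mono_of_mem_nhdsWithin ?_
        rw [mem_nhdsWithin]
        exact ⟨Iio T, isOpen_Iio, h, fun y hy => ⟨hy.2.1, le_of_lt hy.1⟩⟩
      refine h2.congr_of_eventuallyEq ?_ (by rw [hU1 t h.le])
      filter_upwards [mem_nhdsWithin_of_mem_nhds (Iio_mem_nhds h)] with y hy
      rw [hU1 y (le_of_lt hy)]
    · subst h
      have h1 : ContinuousWithinAt (fun τ => ipr (U τ) (e i)) (Icc 0 t) t := by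
        refine (hL.cont (e i) (hcs i) t ⟨ht.1, le_rfl⟩).congr (fun y hy => ?_) ?_
        · rw [hU1 y hy.2]
        · rw [hU1 t le_rfl]
      have h2 : ContinuousWithinAt (fun τ => ipr (U τ) (e i)) (Ioi t) t := by
        rw [ContinuousWithinAt, hU1 t le_rfl]
        refine (hA.lim i).congr' ?_
        filter_upwards [self_mem_nhdsWithin] with y hy
        rw [hU2 y hy]
      refine (h1.union h2).mono fun y hy => ?_
      rcases le_or_gt y t with h3 | h3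
      · exact Or.inl ⟨hy.1, h3⟩
      · exact Or.inr h3
    · have h1 := (hA.eqn i t ⟨h, ht.2⟩).continuousWithinAt
      have h2 : ContinuousWithinAt (fun t => ipr (u₂ t) (e i)) (Icc 0 Θ) t := by
        refine h1.mono_of_mem_nhdsWithin ?_
        rw [mem_nhdsWithin]
        exact ⟨Ioi T, isOpen_Ioi, h, fun y hy => ⟨hy.1, hy.2.2⟩⟩
      refine h2.congr_of_eventuallyEq ?_ (by rw [hU2 t h])
      filter_upwards [mem_nhdsWithin_of_mem_nhds (Ioi_mem_nhds h)] with y hy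
      rw [hU2 y hy]
  have hcoef : ∀ i, IntegrableOn (fun τ => s i * ipr (u₂ τ) (e (σ i)) -
      ν * gf (gr (u₂ τ)) (e i) - av (u₂ τ) (gr (u₂ τ)) (e i)) (Ioo T Θ) ∧
      ∀ t ∈ Icc T Θ, ipr (U t) (e i) = ipr (U T) (e i) + ∫ τ in T..t,
        (s i * ipr (U τ) (e (σ i)) - ν * gf (gr (U τ)) (e i) - av (U τ) (gr (U τ)) (e i)) := by
    intro i
    obtain ⟨K, hK0, hK⟩ := Pool.Agent.Y907.EJ.coef_bd ν hb hskew i
    obtain ⟨h1, h2⟩ := ext_right (g := fun t => ipr (U t) (e i))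
      (F := fun τ => s i * ipr (u₂ τ) (e (σ i)) - ν * dirf (u₂ τ) (e i) -
        adv (u₂ τ) (u₂ τ) (e i)) (C := K) hTΘ.le
      ((hgc i).mono (Icc_subset_Icc_left hT.le)) (fun t ht => by
        have h3 := (hA.eqn i t ⟨ht.1, ht.2.le⟩).hasDerivAt
          (mem_of_superset (Ioo_mem_nhds ht.1 ht.2) Ioo_subset_Ioc_self)
        refine h3.congr_of_eventuallyEq ?_
        filter_upwards [Ioi_mem_nhds ht.1] with y hy
        rw [hU2 y hy]) (fun t ht => by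
        have ht' : t ∈ Ioc T Θ := ⟨ht.1, ht.2.le⟩
        exact hK (u₂ t) ((hfx t ht').sm.of_le two_le) (hfx t ht').zero
          (fun x _ => (hfx t ht').dv x) (hfx t ht').inH ((hA.bd t ht').trans hE₂1))
    refine ⟨?_, fun t ht => ?_⟩
    · simpa only [gf_gr, av_gr] using h1
    · rw [h2 t ht, hI2 (fun f => s i * ipr f (e (σ i)) - ν * gf (gr f) (e i) -
        av f (gr f) (e i)) t ht.1]
      simp only [gf_gr, av_gr]
  have hTI : T ∈ Icc 0 T := ⟨hT.le, le_rfl⟩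
  have hint : ∀ i, IntegrableOn (fun τ => s i * ipr (U τ) (e (σ i)) -
      ν * gf (gr (U τ)) (e i) - av (U τ) (gr (U τ)) (e i)) (Ioo 0 Θ) := fun i =>
    hInt (fun f => s i * ipr f (e (σ i)) - ν * gf (gr f) (e i) - av f (gr f) (e i))
      (hL.int i) (hcoef i).1
  have hdiss : IntegrableOn (fun τ => gg (gr (U τ))) (Ioo 0 Θ) := by
    refine hInt (fun f => gg (gr f)) hL.diss ?_
    simpa only [gg_gr] using hdi
  have hsplit : ∀ (Φ : (E3 → E3) → ℝ), IntegrableOn (fun τ => Φ (U τ)) (Ioo 0 Θ) →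
      ∀ t ∈ Icc T Θ, ∫ τ in (0 : ℝ)..t, Φ (U τ) =
        (∫ τ in (0 : ℝ)..T, Φ (U τ)) + ∫ τ in T..t, Φ (U τ) := by
    intro Φ h t ht
    symm
    refine intervalIntegral.integral_add_adjacent_intervals ?_ ?_
    · rw [intervalIntegrable_iff_integrableOn_Ioo_of_le hT.le]
      exact h.mono_set (Ioo_subset_Ioo_right hTΘ.le)
    · rw [intervalIntegrable_iff_integrableOn_Ioo_of_le ht.1]
      exact h.mono_set (Ioo_subset_Ioo hT.le ht.2)
  refine ⟨U, hU1, hU2, ⟨fun t ht => (hUn t ht).1, ?_, ?_, hdiss, hint, ?_, ?_⟩,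
    fun t ht => (hfx t ht).sm, fun t ht => (hfx t ht).zero, fun t ht => (hfx t ht).dv,
    fun k T₁ hT₁ => aft_der hΩ hb hskew hA k hT₁, ?_⟩
  · exact (Pool.Agent.Y936.EJ.t_WC Ω ι e σ s hΩ hb hskew hco).2 Θ 1 U hUn hgc
  · have h1 : ∀ᵐ t ∂(volume.restrict (Ioc 0 T)), H1w Ω (U t) (gr (U t)) := by
      rw [← restrict_Ioo_eq_restrict_Ioc]
      filter_upwards [hL.grad, ae_restrict_mem measurableSet_Ioo] with t ht ht2
      rw [hU1 t ht2.2.le]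
      exact ht
    have h2 : ∀ᵐ t ∂(volume.restrict (Ioo T Θ)), H1w Ω (U t) (gr (U t)) := by
      filter_upwards [ae_restrict_mem measurableSet_Ioo] with t ht2
      rw [hU2 t ht2.1]
      exact (hfx t ⟨ht2.1, ht2.2.le⟩).h1
    have h3 : ∀ᵐ t ∂(volume.restrict (Ioc 0 T ∪ Ioo T Θ)), H1w Ω (U t) (gr (U t)) :=
      (ae_restrict_union_iff _ _ _).2 ⟨h1, h2⟩
    refine ae_restrict_of_ae_restrict_of_subset ?_ h3
    intro τ hτ
    rcases le_or_gt τ T with h | h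
    · exact Or.inl ⟨hτ.1, h⟩
    · exact Or.inr ⟨h, hτ.2⟩
  · intro i t ht
    rcases le_total t T with h | h
    · have h1 := hL.eqn i t ⟨ht.1, h⟩
      rw [hI1 (fun f => s i * ipr f (e (σ i)) - ν * gf (gr f) (e i) - av f (gr f) (e i)) 0 t
        ht.1 h, hU1 t h, hU1 0 hT.le]
      exact h1
    · have h1 := hL.eqn i T hTI
      have h2 := (hcoef i).2 t ⟨h, ht.2⟩
      rw [hsplit (fun f => s i * ipr f (e (σ i)) - ν * gf (gr f) (e i) - av f (gr f) (e i))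
        (hint i) t ⟨h, ht.2⟩, h2, hI1 (fun f => s i * ipr f (e (σ i)) - ν * gf (gr f) (e i) -
        av f (gr f) (e i)) 0 T hT.le le_rfl, hU1 T le_rfl, hU1 0 hT.le, h1]
      ring
  · intro t ht
    rcases le_or_gt t T with h | h
    · have h1 := hL.energy t ⟨ht.1, h⟩
      rw [hI1 (fun f => gg (gr f)) 0 t ht.1 h, hU1 t h, hU1 0 hT.le]
      exact h1
    · have h2 := hen1 t ⟨h, ht.2⟩
      rw [hsplit (fun f => gg (gr f)) hdiss t ⟨h.le, ht.2⟩, hI1 (fun f => gg (gr f)) 0 T hT.le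
        le_rfl, hI2 (fun f => gg (gr f)) t h.le, hU1 0 hT.le, hU2 t h]
      simp only [gg_gr] at h2 hE₂ ⊢
      linarith
  · intro r t h1 h2 h3
    have h4 := hen2 r t h1 h2 h3
    simp only [gg_gr]
    exact h4

end Pool.Agent.Y303.LN
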