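import Pool.Agent.Y7.LN.Stm
import Pool.Agent.Y303.EJ.W
import Pool.Agent.Y303.LN.One

/-! Project LN: the glueing step (statement of `Pool.Agent.Y7.LN.Stm`). -/

open Set Filter Topology MeasureTheory Metric

set_option autoImplicit false

namespace Pool.Agent.Y303.LN

open Pool.Agent.Y5 (E3)
open Pool.Agent.Y303.SK
open Pool.Agent.Y303.EJ
open Pool.Agent.Y7.LN (Pc S_GLUE)

theorem mon_two {E d : ℝ → ℝ} {c a b l r : ℝ} (hab : a < b) (hc : 0 < c)
    (hE : ∀ t ∈ Ioo a b, HasDerivAt E (-(c * d t)) t) (hd : ∀ t, 0 ≤ d t)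
    (hl : Tendsto E (𝓝[>] a) (𝓝 l)) (hr : Tendsto E (𝓝[<] b) (𝓝 r)) :
    IntegrableOn d (Ioo a b) ∧ ∃ G : ℝ → ℝ, G a = l ∧ G b = r ∧ (∀ t ∈ Ioo a b, G t = E t) ∧
      ∀ s t : ℝ, a ≤ s → s ≤ t → t ≤ b → G t + c * (∫ τ in s..t, d τ) = G s := by
  have hc0 : ContinuousOn E (Ioo a b) := fun t ht => (hE t ht).continuousAt.continuousWithinAt
  set G := extendFrom (Ioo a b) E with hG
  have hGc : ContinuousOn G (Icc a b) := continuousOn_Icc_extendFrom_Ioo hc0 hl hr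
  have hGa : G a = l := eq_lim_at_left_extendFrom_Ioo hab hl
  have hGb : G b = r := eq_lim_at_right_extendFrom_Ioo hab hr
  have hGE : ∀ t ∈ Ioo a b, G t = E t := by
    intro t ht
    refine extendFrom_eq (subset_closure ht) ?_
    exact ((hE t ht).continuousAt.continuousWithinAt : ContinuousWithinAt E (Ioo a b) t)
  have hGd : ∀ t ∈ Ioo a b, HasDerivAt G (-(c * d t)) t := by
    intro t ht
    refine (hE t ht).congr_of_eventuallyEq ?_
    filter_upwards [Ioo_mem_nhds ht.1 ht.2] with y hy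
    exact hGE y hy
  have hint : IntegrableOn d (Ioo a b) := by
    have h1 := intervalIntegral.integrableOn_deriv_of_nonneg (g := fun t => -(c⁻¹ * G t))
      (g' := d) (a := a) (b := b) ?_ ?_ ?_
    · exact h1.mono_set Ioo_subset_Ioc_self
    · exact (hGc.const_smul c⁻¹).neg
    · intro t ht
      have h2 := ((hGd t ht).const_mul c⁻¹).neg
      refine h2.congr_deriv ?_
      field_simp
    · intro t _
      exact hd t
  refine ⟨hint, G, hGa, hGb, hGE, fun s t h1 h2 h3 => ?_⟩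
  have h4 := intervalIntegral.integral_eq_sub_of_hasDerivAt_of_le (f := G)
    (f' := fun τ => -(c * d τ)) h2 (hGc.mono (Icc_subset_Icc h1 h3))
    (fun x hx => hGd x ⟨h1.trans_lt hx.1, hx.2.trans_le h3⟩) (by
      rw [intervalIntegrable_iff_integrableOn_Ioo_of_le h2]
      exact ((hint.mono_set (Ioo_subset_Ioo h1 h3)).const_mul c).neg)
  rw [intervalIntegral.integral_neg, intervalIntegral.integral_const_mul] at h4
  linarith

theorem dnn (v : E3 → E3) : 0 ≤ dirf v v :=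
  integral_nonneg fun x => Finset.sum_nonneg fun i _ => real_inner_self_nonneg

theorem der_le {f : ℝ → ℝ} {f' P a b t : ℝ} (hP : ∀ r ∈ Icc a b, ∀ s ∈ Icc a b,
    |f s - f r| ≤ P * |s - r|) (ht : t ∈ Ioo a b) (hd : HasDerivAt f f' t) : |f'| ≤ |P| := by
  have h1 := hd.le_of_lip' (C := |P|) (abs_nonneg _) (by
    filter_upwards [Ioo_mem_nhds ht.1 ht.2] with x hx
    rw [Real.norm_eq_abs, Real.norm_eq_abs]
    refine (hP t ⟨ht.1.le, ht.2.le⟩ x ⟨hx.1.le, hx.2.le⟩).trans ?_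
    exact mul_le_mul_of_nonneg_right (le_abs_self P) (abs_nonneg _))
  rwa [Real.norm_eq_abs] at h1

theorem cont_lip {f : ℝ → ℝ} {P a b : ℝ} (hP : ∀ r ∈ Icc a b, ∀ s ∈ Icc a b,
    |f s - f r| ≤ P * |s - r|) : ContinuousOn f (Icc a b) := by
  have : LipschitzOnWith (Real.toNNReal |P|) f (Icc a b) := by
    refine LipschitzOnWith.of_dist_le_mul fun x hx y hy => ?_
    rw [Real.dist_eq, Real.dist_eq, Real.coe_toNNReal _ (abs_nonneg _)]
    refine (hP y hy x hx).trans ?_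
    exact mul_le_mul_of_nonneg_right (le_abs_self P) (abs_nonneg _)
  exact this.continuousOn

theorem glue_all (hWC : S_WC) {Ω : Set E3} {ν : ℝ} {ι : Type} {e : ι → E3 → E3} {σ : ι → ι}
    {s : ι → ℝ} {T Θ E₁ E₂ : ℝ} {u₁ u₂ : ℝ → E3 → E3} (hΩ : IsOpen Ω)
    (hb : Bornology.IsBounded Ω) (hν : 0 < ν) (hco : Countable ι) (hskew : SkewD Ω e σ s)
    (hP1 : Pc Ω ν e σ s T u₁) (hP2 : Pc Ω ν e σ s Θ u₂) (h21 : u₂ 0 = u₁ T)
    (hlim1 : Tendsto (fun t => ipr (u₁ t) (u₁ t)) (𝓝[>] 0) (𝓝 (ipr (u₁ 0) (u₁ 0))))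
    (hlim2 : Tendsto (fun t => ipr (u₁ t) (u₁ t)) (𝓝[<] T) (𝓝 E₁))
    (hlim3 : Tendsto (fun t => ipr (u₂ t) (u₂ t)) (𝓝[>] 0) (𝓝 E₂))
    (hlim4 : Tendsto (fun t => ipr (u₂ t) (u₂ t)) (𝓝[<] Θ) (𝓝 (ipr (u₂ Θ) (u₂ Θ))))
    (hE21 : E₂ ≤ E₁) (hE1 : ipr (u₁ T) (u₁ T) ≤ E₁) :
    (WeakD Ω ν e σ s (T + Θ) (fun t => if t ≤ T then u₁ t else u₂ (t - T)) ∧
    ∀ a ∈ Icc 0 (T + Θ), a ≠ T → ∀ b ∈ Icc a (T + Θ), ∀ U : ℝ → E3 → E3,
      (∀ t, U t = if t ≤ T then u₁ t else u₂ (t - T)) →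
      ipr (U b) (U b) + 2 * ν * (∫ τ in a..b, dirf (U τ) (U τ)) ≤ ipr (U a) (U a)) ∧
    ∀ i, ∀ U : ℝ → E3 → E3, (∀ t, U t = if t ≤ T then u₁ t else u₂ (t - T)) →
      IntegrableOn (fun τ => s i * ipr (U τ) (e (σ i)) - ν * dirf (U τ) (e i) -
        adv (U τ) (U τ) (e i)) (Ioo 0 (T + Θ)) := by
  have hT := hP1.hT
  have hΘ := hP2.hT
  obtain ⟨U, hU⟩ : ∃ U : ℝ → E3 → E3, U = fun t => if t ≤ T then u₁ t else u₂ (t - T) :=
    ⟨_, rfl⟩
  have hU1 : ∀ t ≤ T, U t = u₁ t := fun t ht => by rw [hU]; exact if_pos ht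
  have hU2 : ∀ t, T < t → U t = u₂ (t - T) := fun t ht => by
    rw [hU]; exact if_neg (not_le.2 ht)
  have hU2' : ∀ t, T ≤ t → U t = u₂ (t - T) := by
    intro t ht
    rcases ht.eq_or_lt with h | h
    · subst h
      rw [hU1 _ le_rfl, sub_self, h21]
    · exact hU2 t h
  have hm2 : ∀ t ∈ Icc T (T + Θ), t - T ∈ Icc 0 Θ := fun t ht =>
    ⟨by linarith [ht.1], by linarith [ht.2]⟩
  have hm2' : ∀ t ∈ Ioo T (T + Θ), t - T ∈ Ioo 0 Θ := fun t ht =>
    ⟨by linarith [ht.1], by linarith [ht.2]⟩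
  have hUn : ∀ t ∈ Icc 0 (T + Θ), InH Ω (U t) ∧ ipr (U t) (U t) ≤ 1 := by
    intro t ht
    rcases le_total t T with h | h
    · rw [hU1 t h]
      exact ⟨hP1.inH t ⟨ht.1, h⟩, hP1.en1 t ⟨ht.1, h⟩⟩
    · rw [hU2' t h]
      exact ⟨hP2.inH _ (hm2 t ⟨h, ht.2⟩), hP2.en1 _ (hm2 t ⟨h, ht.2⟩)⟩
  -- coefficients
  have key : ∀ i, ∃ P1 P2 : ℝ,
      (∀ r ∈ Icc 0 T, ∀ t ∈ Icc 0 T, |ipr (U t) (e i) - ipr (U r) (e i)| ≤ P1 * |t - r|) ∧
      (∀ r ∈ Icc T (T + Θ), ∀ t ∈ Icc T (T + Θ),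
        |ipr (U t) (e i) - ipr (U r) (e i)| ≤ P2 * |t - r|) := by
    intro i
    obtain ⟨P1, h1⟩ := hP1.lip i
    obtain ⟨P2, h2⟩ := hP2.lip i
    refine ⟨P1, P2, fun r hr t ht => ?_, fun r hr t ht => ?_⟩
    · rw [hU1 r hr.2, hU1 t ht.2]
      exact h1 r hr t ht
    · rw [hU2' r hr.1, hU2' t ht.1]
      have := h2 _ (hm2 r hr) _ (hm2 t ht)
      rwa [show t - T - (r - T) = t - r by ring] at this
  have hd1 : ∀ i, ∀ t ∈ Ioo 0 T, HasDerivAt (fun τ => ipr (U τ) (e i))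
      (s i * ipr (U t) (e (σ i)) - ν * dirf (U t) (e i) - adv (U t) (U t) (e i)) t := by
    intro i t ht
    rw [hU1 t ht.2.le]
    refine (hP1.der i t ht).congr_of_eventuallyEq ?_
    filter_upwards [Iio_mem_nhds ht.2] with y hy
    rw [hU1 y (le_of_lt hy)]
  have hd2 : ∀ i, ∀ t ∈ Ioo T (T + Θ), HasDerivAt (fun τ => ipr (U τ) (e i))
      (s i * ipr (U t) (e (σ i)) - ν * dirf (U t) (e i) - adv (U t) (U t) (e i)) t := by
    intro i t ht
    rw [hU2 t ht.1]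
    have h1 := hP2.der i (t - T) (hm2' t ht)
    have h2 : HasDerivAt (fun τ : ℝ => τ - T) 1 t := (hasDerivAt_id t).sub_const T
    have h3 := HasDerivAt.comp t h1 h2
    rw [mul_one] at h3
    refine h3.congr_of_eventuallyEq ?_
    filter_upwards [Ioi_mem_nhds ht.1] with y hy
    simp only [Function.comp]
    rw [hU2 y hy]
  have hF : ∀ i, (IntegrableOn (fun τ => s i * ipr (U τ) (e (σ i)) - ν * dirf (U τ) (e i) -
      adv (U τ) (U τ) (e i)) (Ioo 0 T) ∧ ∀ t ∈ Icc 0 T, ipr (U t) (e i) = ipr (U 0) (e i) +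
        ∫ τ in (0 : ℝ)..t, (s i * ipr (U τ) (e (σ i)) - ν * dirf (U τ) (e i) -
          adv (U τ) (U τ) (e i))) ∧
      (IntegrableOn (fun τ => s i * ipr (U τ) (e (σ i)) - ν * dirf (U τ) (e i) -
      adv (U τ) (U τ) (e i)) (Ioo T (T + Θ)) ∧ ∀ t ∈ Icc T (T + Θ),
        ipr (U t) (e i) = ipr (U T) (e i) +
        ∫ τ in T..t, (s i * ipr (U τ) (e (σ i)) - ν * dirf (U τ) (e i) -
          adv (U τ) (U τ) (e i))) := by
    intro i
    obtain ⟨P1, P2, k1, k2⟩ := key i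
    exact ⟨ext_right hT.le (cont_lip k1) (hd1 i) fun t ht => der_le k1 ht (hd1 i t ht),
      ext_right (by linarith) (cont_lip k2) (hd2 i) fun t ht => der_le k2 ht (hd2 i t ht)⟩
  have hgc : ∀ i, ContinuousOn (fun t => ipr (U t) (e i)) (Icc 0 (T + Θ)) := by
    intro i
    obtain ⟨P1, P2, k1, k2⟩ := key i
    have h1 := (cont_lip k1).union_of_isClosed (cont_lip k2) isClosed_Icc isClosed_Icc
    rwa [Icc_union_Icc_eq_Icc hT.le (by linarith)] at h1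
  -- energy
  have he1 : ∀ t ∈ Ioo 0 T, HasDerivAt (fun τ => ipr (U τ) (U τ))
      (-(2 * ν * dirf (U t) (U t))) t := by
    intro t ht
    rw [hU1 t ht.2.le]
    refine ((hP1.en t ht).congr_of_eventuallyEq ?_).congr_deriv (by ring)
    filter_upwards [Iio_mem_nhds ht.2] with y hy
    rw [hU1 y (le_of_lt hy)]
  have he2 : ∀ t ∈ Ioo T (T + Θ), HasDerivAt (fun τ => ipr (U τ) (U τ))
      (-(2 * ν * dirf (U t) (U t))) t := by
    intro t ht
    rw [hU2 t ht.1]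
    have h1 := hP2.en (t - T) (hm2' t ht)
    have h2 : HasDerivAt (fun τ : ℝ => τ - T) 1 t := (hasDerivAt_id t).sub_const T
    have h3 := HasDerivAt.comp t h1 h2
    rw [mul_one] at h3
    refine (h3.congr_of_eventuallyEq ?_).congr_deriv (by ring)
    filter_upwards [Ioi_mem_nhds ht.1] with y hy
    simp only [Function.comp]
    rw [hU2 y hy]
  have hl1 : Tendsto (fun t => ipr (U t) (U t)) (𝓝[>] 0) (𝓝 (ipr (U 0) (U 0))) := by
    rw [hU1 0 hT.le]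
    refine hlim1.congr' ?_
    filter_upwards [Ioo_mem_nhdsGT hT] with t ht
    rw [hU1 t ht.2.le]
  have hl2 : Tendsto (fun t => ipr (U t) (U t)) (𝓝[<] T) (𝓝 E₁) := by
    refine hlim2.congr' ?_
    filter_upwards [Ioo_mem_nhdsLT hT] with t ht
    rw [hU1 t ht.2.le]
  have hs3 : Tendsto (fun t : ℝ => t - T) (𝓝[>] T) (𝓝[>] 0) := by
    refine tendsto_nhdsWithin_of_tendsto_nhds_of_eventually_within _ ?_ ?_
    · have : Tendsto (fun t : ℝ => t - T) (𝓝 T) (𝓝 (T - T)) :=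
        (continuous_id.sub continuous_const).tendsto T
      rw [sub_self] at this
      exact this.mono_left nhdsWithin_le_nhds
    · filter_upwards [self_mem_nhdsWithin] with t ht
      have ht : T < t := ht
      show 0 < t - T
      linarith
  have hs4 : Tendsto (fun t : ℝ => t - T) (𝓝[<] (T + Θ)) (𝓝[<] Θ) := by
    refine tendsto_nhdsWithin_of_tendsto_nhds_of_eventually_within _ ?_ ?_
    · have : Tendsto (fun t : ℝ => t - T) (𝓝 (T + Θ)) (𝓝 (T + Θ - T)) :=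
        (continuous_id.sub continuous_const).tendsto (T + Θ)
      rw [add_sub_cancel_left] at this
      exact this.mono_left nhdsWithin_le_nhds
    · filter_upwards [self_mem_nhdsWithin] with t ht
      have ht : t < T + Θ := ht
      show t - T < Θ
      linarith
  have hl3 : Tendsto (fun t => ipr (U t) (U t)) (𝓝[>] T) (𝓝 E₂) := by
    refine (hlim3.comp hs3).congr' ?_
    filter_upwards [self_mem_nhdsWithin] with t ht
    simp only [Function.comp]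
    rw [hU2 t ht]
  have hl4 : Tendsto (fun t => ipr (U t) (U t)) (𝓝[<] (T + Θ))
      (𝓝 (ipr (U (T + Θ)) (U (T + Θ)))) := by
    rw [hU2 (T + Θ) (by linarith), add_sub_cancel_left]
    refine (hlim4.comp hs4).congr' ?_
    filter_upwards [Ioo_mem_nhdsLT (show T < T + Θ by linarith)] with t ht
    simp only [Function.comp]
    rw [hU2 t ht.1]
  obtain ⟨hi1, G₁, g1a, g1b, g1c, g1d⟩ := mon_two hT (show 0 < 2 * ν by positivity) he1
    (fun t => dnn _) hl1 hl2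
  obtain ⟨hi2, G₂, g2a, g2b, g2c, g2d⟩ := mon_two (show T < T + Θ by linarith)
    (show 0 < 2 * ν by positivity) he2 (fun t => dnn _) hl3 hl4
  have hG1 : ∀ t ∈ Ico 0 T, G₁ t = ipr (U t) (U t) := by
    intro t ht
    rcases ht.1.eq_or_lt with h | h
    · rw [← h, g1a]
    · exact g1c t ⟨h, ht.2⟩
  have hG2 : ∀ t ∈ Ioc T (T + Θ), G₂ t = ipr (U t) (U t) := by
    intro t ht
    rcases ht.2.eq_or_lt with h | h
    · rw [h, g2b]
    · exact g2c t ⟨ht.1, h⟩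
  have hII : ∀ a b : ℝ, 0 ≤ a → a ≤ T → T ≤ b → b ≤ T + Θ →
      ∫ τ in a..b, dirf (U τ) (U τ) = (∫ τ in a..T, dirf (U τ) (U τ)) +
        ∫ τ in T..b, dirf (U τ) (U τ) := by
    intro a b h1 h2 h3 h4
    symm
    refine intervalIntegral.integral_add_adjacent_intervals ?_ ?_
    · rw [intervalIntegrable_iff_integrableOn_Ioo_of_le h2]
      exact hi1.mono_set (Ioo_subset_Ioo_left h1)
    · rw [intervalIntegrable_iff_integrableOn_Ioo_of_le h3]
      exact hi2.mono_set (Ioo_subset_Ioo_right h4)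
  have hen : ∀ a ∈ Icc 0 (T + Θ), a ≠ T → ∀ b ∈ Icc a (T + Θ),
      ipr (U b) (U b) + 2 * ν * (∫ τ in a..b, dirf (U τ) (U τ)) ≤ ipr (U a) (U a) := by
    intro a ha haT b hb
    rcases lt_or_gt_of_ne haT with h | h
    · -- `a < T`
      rcases lt_trichotomy b T with h1 | h1 | h1
      · have h2 := g1d a b ha.1 hb.1 h1.le
        rw [hG1 a ⟨ha.1, h⟩, hG1 b ⟨ha.1.trans hb.1, h1⟩] at h2
        exact h2.le
      · have h2 := g1d a T ha.1 h.le le_rfl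
        rw [hG1 a ⟨ha.1, h⟩, g1b] at h2
        have h3 : ipr (U T) (U T) ≤ E₁ := by
          rw [hU1 T le_rfl]
          exact hE1
        rw [h1]
        linarith only [h2, h3]
      · have h2 := g1d a T ha.1 h.le le_rfl
        rw [hG1 a ⟨ha.1, h⟩, g1b] at h2
        have h3 := g2d T b le_rfl h1.le hb.2
        rw [g2a, hG2 b ⟨h1, hb.2⟩] at h3
        rw [hII a b ha.1 h.le h1.le hb.2]
        linarith only [h2, h3, hE21]
    · have h2 := g2d a b h.le hb.1 hb.2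
      rw [hG2 a ⟨h, ha.2⟩, hG2 b ⟨h.trans_le hb.1, hb.2⟩] at h2
      exact h2.le
  rw [← hU]
  refine ⟨⟨⟨fun t ht => (hUn t ht).1, ?_, ?_, ?_, ?_⟩, ?_⟩, ?_⟩
  · exact (hWC Ω ι e σ s hΩ hb hskew hco).2 (T + Θ) 1 U hUn hgc
  · refine ((((integrableOn_Ioc_iff_integrableOn_Ioo).2 hi1).union hi2)).mono_set ?_
    intro τ hτ
    rcases le_or_gt τ T with h | h
    · exact Or.inl ⟨hτ.1, h⟩
    · exact Or.inr ⟨h, hτ.2⟩
  · intro i t ht
    obtain ⟨⟨f1, f2⟩, f3, f4⟩ := hF i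
    rcases le_total t T with h | h
    · exact f2 t ⟨ht.1, h⟩
    · rw [f4 t ⟨h, ht.2⟩, f2 T ⟨hT.le, le_rfl⟩, add_assoc,
        intervalIntegral.integral_add_adjacent_intervals]
      · rw [intervalIntegrable_iff_integrableOn_Ioo_of_le hT.le]
        exact f1
      · rw [intervalIntegrable_iff_integrableOn_Ioo_of_le h]
        exact f3.mono_set (Ioo_subset_Ioo_right ht.2)
  · intro t ht
    exact hen 0 ⟨le_rfl, by linarith⟩ hT.ne t ht
  · intro a ha haT b hb V hV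
    have hVU : V = U := by
      rw [hU]
      exact funext hV
    rw [hVU]
    exact hen a ha haT b hb
  · intro i V hV
    have hVU : V = U := by
      rw [hU]
      exact funext hV
    rw [hVU]
    refine ((((integrableOn_Ioc_iff_integrableOn_Ioo).2 (hF i).1.1).union (hF i).2.1)).mono_set ?_
    intro τ hτ
    rcases le_or_gt τ T with h | h
    · exact Or.inl ⟨hτ.1, h⟩
    · exact Or.inr ⟨h, hτ.2⟩

/-- the glueing step, word for word -/
theorem t_GLUE7 (hWC : S_WC) : S_GLUE := by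
  intro Ω ν ι e σ s T Θ E₁ E₂ u₁ u₂ hΩ hb hν hco hskew hP1 hP2 h21 hlim1 hlim2 hlim3 hlim4
    hE21 hE1
  exact (glue_all hWC hΩ hb hν hco hskew hP1 hP2 h21 hlim1 hlim2 hlim3 hlim4 hE21 hE1).1

theorem gf_gr' (u w : E3 → E3) : gf (gr u) w = dirf u w := rfl

theorem gg_gr' (u : E3 → E3) : gg (gr u) = dirf u u := by
  unfold gg dirf gr
  refine integral_congr_ae (Eventually.of_forall fun x => ?_)
  exact Finset.sum_congr rfl fun i _ => (real_inner_self_eq_norm_sq _).symm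

theorem av_gr' (v u w : E3 → E3) : av v (gr u) w = adv v u w := by
  unfold av adv gr
  refine integral_congr_ae (Eventually.of_forall fun x => ?_)
  have h1 : v x = ∑ i : Fin 3, v x i • cv i := by
    ext j
    simp [cv, Pi.single_apply]
  have h2 : fderiv ℝ u x (v x) = ∑ i : Fin 3, v x i • fderiv ℝ u x (cv i) := by
    conv_lhs => rw [h1]
    rw [map_sum]
    simp only [map_smul]
  show inner ℝ (∑ i : Fin 3, v x i • fderiv ℝ u x (cv i)) (w x) = inner ℝ (fderiv ℝ u x (v x)) (w x)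
  rw [h2]

/-- from `WeakD` to the class `LH` -/
theorem lh_of_weakD {Ω : Set E3} {ν : ℝ} {ι : Type} {e : ι → E3 → E3} {σ : ι → ι}
    {s : ι → ℝ} {T : ℝ} {U : ℝ → E3 → E3} (hW : WeakD Ω ν e σ s T U)
    (hint : ∀ i, IntegrableOn (fun τ => s i * ipr (U τ) (e (σ i)) - ν * dirf (U τ) (e i) -
        adv (U τ) (U τ) (e i)) (Ioo 0 T))
    (hH : ∀ᵐ t ∂(volume.restrict (Ioo 0 T)), H1w Ω (U t) (gr (U t))) :
    LH Ω ν e σ s T U (fun t => gr (U t)) := by
  refine ⟨hW.inH, hW.cont, hH, ?_, ?_, ?_, ?_⟩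
  · refine hW.diss.congr_fun (fun t _ => ?_) measurableSet_Ioo
    exact (gg_gr' _).symm
  · intro i
    simp only [gf_gr', av_gr']
    exact hint i
  · intro i t ht
    simp only [gf_gr', av_gr']
    exact hW.eqn i t ht
  · intro t ht
    simp only [gg_gr']
    exact hW.energy t ht

/-- The glueing step in the class `LH` (the class of `MP_a38b17_an.SkewTermEnergyLoss`). -/
theorem t_GLUEL (hWC : S_WC) {Ω : Set E3} {ν : ℝ} {ι : Type} {e : ι → E3 → E3} {σ : ι → ι}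
    {s : ι → ℝ} {T Θ E₁ E₂ : ℝ} {u₁ u₂ : ℝ → E3 → E3} (hΩ : IsOpen Ω)
    (hb : Bornology.IsBounded Ω) (hν : 0 < ν) (hco : Countable ι) (hskew : SkewD Ω e σ s)
    (hP1 : Pc Ω ν e σ s T u₁) (hP2 : Pc Ω ν e σ s Θ u₂) (h21 : u₂ 0 = u₁ T)
    (hlim1 : Tendsto (fun t => ipr (u₁ t) (u₁ t)) (𝓝[>] 0) (𝓝 (ipr (u₁ 0) (u₁ 0))))
    (hlim2 : Tendsto (fun t => ipr (u₁ t) (u₁ t)) (𝓝[<] T) (𝓝 E₁))
    (hlim3 : Tendsto (fun t => ipr (u₂ t) (u₂ t)) (𝓝[>] 0) (𝓝 E₂))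
    (hlim4 : Tendsto (fun t => ipr (u₂ t) (u₂ t)) (𝓝[<] Θ) (𝓝 (ipr (u₂ Θ) (u₂ Θ))))
    (hE21 : E₂ ≤ E₁) (hE1 : ipr (u₁ T) (u₁ T) ≤ E₁)
    (hH1 : ∀ t ∈ Ioo 0 T, H1w Ω (u₁ t) (gr (u₁ t)))
    (hH2 : ∀ t ∈ Ioo 0 Θ, H1w Ω (u₂ t) (gr (u₂ t))) :
    ∃ U : ℝ → E3 → E3, (∀ t, U t = if t ≤ T then u₁ t else u₂ (t - T)) ∧
      LH Ω ν e σ s (T + Θ) U (fun t => gr (U t)) ∧
      ∀ a ∈ Icc 0 (T + Θ), a ≠ T → ∀ b ∈ Icc a (T + Θ),
        ipr (U b) (U b) + 2 * ν * (∫ τ in a..b, gg (gr (U τ))) ≤ ipr (U a) (U a) := by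
  obtain ⟨⟨h1, h2⟩, h3⟩ := glue_all hWC hΩ hb hν hco hskew hP1 hP2 h21 hlim1 hlim2 hlim3 hlim4
    hE21 hE1
  refine ⟨fun t => if t ≤ T then u₁ t else u₂ (t - T), fun t => rfl, lh_of_weakD h1
    (fun i => h3 i _ fun t => rfl) ?_, fun a ha haT b hb' => ?_⟩
  · have hne : ∀ᵐ t ∂(volume.restrict (Ioo 0 (T + Θ))), t ≠ T :=
      ae_restrict_of_ae (by
        have : (volume : Measure ℝ) {T} = 0 := Real.volume_singleton
        exact compl_mem_ae_iff.2 this)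
    filter_upwards [hne, ae_restrict_mem measurableSet_Ioo] with t ht1 ht2
    rcases lt_or_gt_of_ne ht1 with h | h
    · simp only [if_pos h.le]
      exact hH1 t ⟨ht2.1, h⟩
    · simp only [if_neg (not_le.2 h)]
      exact hH2 (t - T) ⟨by linarith, by linarith [ht2.2]⟩
  · simp only [gg_gr']
    exact h2 a ha haT b hb' _ fun t => rfl

end Pool.Agent.Y303.LN
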