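import Pool.Agent.Y303.EJ.Ode
import Pool.Agent.Y7.LN.Stm2

/-!
Project LN, second part: the theorem on the main modes with the far modes.
-/

open Set Filter Topology MeasureTheory Metric

set_option autoImplicit false

namespace Pool.Agent.Y303.EJ.Od

open Pool.Agent.Y5 (E3 Y Pr Pr_sub Pr_cont Pr_deriv Pr_mono Pr_zero Pr_int)
open Pool.Agent.Y5.D (Ix qd vf3 Init)
open Pool.Agent.Y6.N (Rot lin src ph XSol TSol)
open Pool.Agent.Y6.K (Kz lv)
open Pool.Agent.Y303.SK

section

variable {η : ℝ} {lm L C ℓ : ℕ → ℝ} {B : ℕ → ℕ → ℝ} {T : ℝ} {x R V : ℕ → ℝ → ℝ}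

/-- The alternatives for a chain. -/
theorem main2 (h : Al η lm L C ℓ B T x R V) :
    T ≤ 3 * lm 0 ∧ (∀ t ∈ Ico 0 T, 1 - η ≤ R 0 t ^ 2) ∧
    ((∀ n, (∃ t ∈ Ico 0 T, 9 / 10 ≤ x n t) ∧
        (∃ s ∈ Ico 0 T, ∀ t ∈ Ico s T, |x n t| ≤ dl η n) ∧
        ∀ t ∈ Ico 0 T, 1 / (dl η (n + 1) * L n) < T - t → ∀ m, n + 3 ≤ m →
          |x m t| ≤ Real.exp (-(lm (m - 1) / 200))) ∨
      ∃ n₀, ∀ t ∈ Ico 0 T, ∀ m, n₀ ≤ m → |x m t| ≤ Real.exp (-(lm (m - 1) / 200))) := by
  classical
  have hch := h.ch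
  have hL0 := hch.nm.L1 0
  have hη0 := hch.sq.η0
  have hη1 := hch.sq.η1
  -- consequences of the history
  have hfin : (∀ t ∈ Ico 0 T, ∃ k, His η lm L R k t) →
      T ≤ 3 * lm 0 ∧ ∀ t ∈ Ico 0 T, 1 - η ≤ R 0 t ^ 2 := by
    intro hh
    constructor
    · by_contra hcon
      push Not at hcon
      have hlm := hch.nm.lm1 0
      obtain ⟨t, ht1, ht2⟩ := exists_between hcon
      obtain ⟨k, hk⟩ := hh t ⟨by linarith, ht2⟩
      have := hk.time
      nlinarith
    · intro t ht
      obtain ⟨k, hk⟩ := hh t ht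
      have := h.enl k t ht hk
      nlinarith
  have hfar : ∀ n, (∀ t ∈ Ico 0 T, ∃ k ≤ n, His η lm L R k t) →
      ∃ n₀, ∀ t ∈ Ico 0 T, ∀ m, n₀ ≤ m → |x m t| ≤ Real.exp (-(lm (m - 1) / 200)) := by
    intro n hh
    refine ⟨n + 3, fun t ht m hm => ?_⟩
    obtain ⟨k, hk, h1⟩ := hh t ht
    obtain ⟨m', rfl⟩ : ∃ m', m = m' + 1 := ⟨m - 1, by omega⟩
    have h2 := (h.far k t ht h1 m' (by omega)).1
    have h3 := x_le_R hch (m' + 1) ht
    rw [Nat.add_sub_cancel]
    refine h3.trans (h2.trans (Real.exp_le_exp.2 ?_))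
    linarith [hch.nm.lm1 m']
  by_cases hall : ∀ n, ∃ t ∈ Ico 0 T, Th L R n t = cn η n
  · choose s hs1 hs2 using hall
    have hA : ∀ n, ∀ k ≤ n, Inv η lm L T x R s k := by
      intro n
      induction n with
      | zero =>
        intro k hk
        obtain rfl : k = 0 := by omega
        exact inv0 h (hs1 0) (hs2 0)
      | succ n ih =>
        intro k hk
        rcases Nat.of_le_succ hk with h5 | h5
        · exact ih k h5
        · subst h5
          exact step h ih (hs1 _) (hs2 _)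
    have hI : ∀ n, Inv η lm L T x R s n := fun n => hA n n le_rfl
    -- `T` is the supremum
    have hsup : ∀ t ∈ Ico 0 T, ∃ n, t ≤ s n := by
      intro t ht
      by_contra hcon
      push Not at hcon
      obtain ⟨M, hM⟩ := hch.bdd t ht.2
      obtain ⟨n, hn⟩ := pow_unbounded_of_one_lt (2 * |M|) (by norm_num : (1 : ℝ) < 2)
      have h1 := hM (s n) ⟨(hs1 n).1, (hcon n).le⟩ n
      have h2 := (hI n).big
      have h3 := L_geo hch n
      have h4 := hch.nm.L1 n
      have h5 : L n ≤ L n ^ 10 := by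
        calc L n = L n ^ 1 := (pow_one _).symm
          _ ≤ L n ^ 10 := pow_le_pow_right₀ h4 (by norm_num)
      have h6 : 95 / 100 ≤ |x n (s n)| := h2.trans (le_abs_self _)
      have h7 : L n * (95 / 100) ≤ L n ^ 10 * |x n (s n)| :=
        mul_le_mul h5 h6 (by norm_num) (by positivity)
      have h8 := le_abs_self M
      have h9 := abs_nonneg M
      linarith
    have hmono : ∀ k n, k ≤ n → s k ≤ s n := fun k n hkn => ((hI n).le k hkn).1
    have hup : ∀ k t, t ∈ Ico 0 T → t ≤ s k + D η L k := by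
      intro k t ht
      obtain ⟨n, hn⟩ := hsup t ht
      rcases le_total k n with h1 | h1
      · have h2 := ((hI n).le k h1).2
        have h3 := D_pos hch n
        linarith
      · have h2 := hmono n k h1
        have h3 := D_pos hch k
        linarith
    have hhist : ∀ t ∈ Ico 0 T, ∃ k, His η lm L R k t := by
      intro t ht
      obtain ⟨n, hn⟩ := hsup t ht
      have h1 : Th L R (n + 1) t ≤ cn η (n + 1) := by
        rw [← hs2 (n + 1)]
        exact th_mono hch (n + 1) ht (hs1 _) (hn.trans (hmono n (n + 1) (by omega)))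
      obtain ⟨k, -, h2⟩ := hist h (hA n) ht h1
      exact ⟨k, h2⟩
    obtain ⟨hT, hE⟩ := hfin hhist
    have hTs : ∀ k, T ≤ s k + D η L k := by
      intro k
      refine le_of_forall_lt fun t ht => ?_
      obtain ⟨t', h1, h2⟩ := exists_between (max_lt ht hch.hT)
      have h3 := hup k t' ⟨(le_max_right t 0).trans h1.le, h2⟩
      linarith [le_max_left t 0]
    refine ⟨hT, hE, Or.inl fun n => ⟨⟨s n, hs1 n, by linarith [(hI n).big]⟩,
      ⟨s (n + 1), hs1 (n + 1), fun t ht => ?_⟩, fun t ht htn m hm => ?_⟩⟩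
    swap
    · have h1 : t ≤ s n := by
        have := hTs n
        have h2 : D η L n = 1 / (dl η (n + 1) * L n) := rfl
        rw [h2] at this
        linarith
      obtain ⟨k, hk, h2⟩ : ∃ k ≤ n, His η lm L R k t := by
        rcases n with _ | n
        · refine ⟨0, le_rfl, base0 h ht ?_⟩
          rw [← hs2 0]
          exact th_mono hch 0 ht (hs1 0) h1
        · have h3 : Th L R (n + 1) t ≤ cn η (n + 1) := by
            rw [← hs2 (n + 1)]
            exact th_mono hch (n + 1) ht (hs1 _) h1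
          obtain ⟨k, hk, h4⟩ := hist h (hA n) ht h3
          exact ⟨k, by omega, h4⟩
      obtain ⟨m', rfl⟩ : ∃ m', m = m' + 1 := ⟨m - 1, by omega⟩
      have h4 := (h.far k t ht h2 m' (by omega)).1
      have h5 := x_le_R hch (m' + 1) ht
      rw [Nat.add_sub_cancel]
      refine h5.trans (h4.trans (Real.exp_le_exp.2 ?_))
      linarith [hch.nm.lm1 m']
    have h1 := inv_left h (hA (n + 1)) ht (hup (n + 1) t ⟨(hs1 (n + 1)).1.trans ht.1, ht.2⟩) n
      (by omega)
    have h2 : dl η (n + 1) = dl η n / 4 := hch.nm.ds n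
    have h3 := hch.nm.d0 n
    rw [h2] at h1
    linarith
  · push Not at hall
    set n := Nat.find hall with hn
    have hno : ∀ t ∈ Ico 0 T, Th L R n t ≠ cn η n := Nat.find_spec hall
    have hyes : ∀ k, k < n → ∃ t ∈ Ico 0 T, Th L R k t = cn η k := by
      intro k hk
      have := Nat.find_min hall hk
      push Not at this
      exact this
    have hlt : ∀ t ∈ Ico 0 T, Th L R n t ≤ cn η n := by
      intro t ht
      by_contra hcon
      push Not at hcon
      have h0 : (0 : ℝ) ∈ Ico 0 T := ⟨le_rfl, hch.hT⟩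
      obtain ⟨t', ht', h1⟩ := th_ivt hch n (c := cn η n) h0 ht ht.1 (by
        rw [th_zero]
        have := hch.nm.d0 (n + 1)
        unfold cn
        positivity) hcon.le
      exact hno t' ⟨ht'.1, ht'.2.trans_lt ht.2⟩ h1
    have hex : ∃ s : ℕ → ℝ, ∀ k < n, s k ∈ Ico 0 T ∧ Th L R k (s k) = cn η k := by
      refine ⟨fun k => if hk : k < n then (hyes k hk).choose else 0, fun k hk => ?_⟩
      simp only [hk, dif_pos]
      exact (hyes k hk).choose_spec
    obtain ⟨s, hs⟩ := hex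
    have hcase : ∃ m, ∀ t ∈ Ico 0 T, ∃ k ≤ m, His η lm L R k t := by
      rcases Nat.eq_zero_or_pos n with h0 | h0
      · refine ⟨0, fun t ht => ⟨0, le_rfl, base0 h ht ?_⟩⟩
        have := hlt t ht
        rwa [h0] at this
      · obtain ⟨m, hm⟩ : ∃ m, n = m + 1 := ⟨n - 1, by omega⟩
        have hA : ∀ j ≤ m, ∀ k ≤ j, Inv η lm L T x R s k := by
          intro j
          induction j with
          | zero =>
            intro _ k hk
            obtain rfl : k = 0 := by omega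
            exact inv0 h (hs 0 (by omega)).1 (hs 0 (by omega)).2
          | succ j ih =>
            intro hj k hk
            rcases Nat.of_le_succ hk with h5 | h5
            · exact ih (by omega) k h5
            · subst h5
              exact step h (ih (by omega)) (hs _ (by omega)).1 (hs _ (by omega)).2
        refine ⟨m, fun t ht => hist h (hA m le_rfl) ht ?_⟩
        have := hlt t ht
        rwa [hm] at this
    obtain ⟨m, hm⟩ := hcase
    obtain ⟨hT, hE⟩ := hfin fun t ht => by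
      obtain ⟨k, -, hk⟩ := hm t ht
      exact ⟨k, hk⟩
    exact ⟨hT, hE, Or.inr (hfar m hm)⟩

end

end Pool.Agent.Y303.EJ.Od

namespace Pool.Agent.Y303.LN

open Pool.Agent.Y5 (E3 Y Pr)
open Pool.Agent.Y5.D (Ix qd vf3 Init)
open Pool.Agent.Y6.N (Rot lin src ph XSol TSol)
open Pool.Agent.Y303.EJ

theorem t_ODE2 (hnum : S_NUM) (hch : S_CH) (hgrow : S_GROW) (hgz : S_GZ) (hlip : S_LIP)
    (hupa : S_UPA) (hfar : S_FAR) (hneg : S_NEG) (hlow : S_LOW) (hrot : S_ROT) (hstg : S_STG)
    (henl : S_ENL) (hnext : S_NEXT) (hbase : S_BASE) : Pool.Agent.Y7.LN.S_ODE2 := by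
  intro η lm L C ℓ B hsq
  have hnm := hnum η lm L C ℓ B hsq
  refine ⟨ph lm, fun n => Pool.Agent.Y6.N.ph_pos lm n, 3 * lm 0, ?_, ?_⟩
  · have := hnm.lm1 0
    linarith
  · intro T x f hT hx hb hen hf h0 hn
    have hc := hch η lm L C ℓ B T x f hsq hnm hT hx hb hen hf h0 hn
    have g1 := hgrow _ _ _ _ _ _ _ _ _ _ hc
    have g2 := hgz _ _ _ _ _ _ _ _ _ _ hc
    have g3 := hlip _ _ _ _ _ _ _ _ _ _ hc
    have g4 := hupa _ _ _ _ _ _ _ _ _ _ hc g1
    have g5 := hfar _ _ _ _ _ _ _ _ _ _ hc g4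
    have g6 := hneg _ _ _ _ _ _ _ _ _ _ hc g5
    have g7 := hlow _ _ _ _ _ _ _ _ _ _ hc g5 g6
    have g8 := hrot _ _ _ _ _ _ _ _ _ _ hc g5
    have g9 := hstg _ _ _ _ _ _ _ _ _ _ hc g2 g4 g5 g8
    have g10 := henl _ _ _ _ _ _ _ _ _ _ hc g5
    have g11 := hnext _ _ _ _ _ _ _ _ _ _ hc g5 g6
    have g12 := hbase _ _ _ _ _ _ _ _ _ _ hc g2 g4 g5 g6 g10
    have h := Od.main2 ⟨hc, g4, g5, g7, g9, g10, g11, g12, g3⟩
    refine ⟨h.1, ?_, h.2.2⟩
    intro t ht
    have h1 := h.2.1 t ht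
    have hY : 0 ≤ Y x 0 t := tsum_nonneg fun j => sq_nonneg _
    rw [Real.sq_sqrt hY] at h1
    simpa [Y] using h1

end Pool.Agent.Y303.LN
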